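import Pool.Agent.Helper53.SLM.Char
import Pool.Agent.Helper76.SL.M_GAM
import Pool.Agent.Helper57.SL.M_LAM
import Pool.Agent.Helper34.SLM.M_SPS
import Pool.Agent.Helper22.SLM.M_LTP
import Pool.Agent.Helper86.SLM.M_MMP
import Pool.Agent.Helper2.SLM.M_UNP
import Pool.Agent.Helper2.SLM.M_LPL
import Pool.Agent.Helper1.SLM.M_DTP
import Pool.Agent.Helper65.SL.M_FOU
import Pool.Agent.Helper75.SL.M_BES
import Pool.Agent.Helper37.SL.M_POW
import Pool.Agent.Helper38.SLM.M_PSA
import Pool.Agent.Helper97.SL.M_FAT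
import Pool.Agent.Helper43.SL.M_KRO
import Pool.Agent.Helper66.SLM.M_DET
import Pool.Agent.Helper87.SLM.M_TOE
import Pool.Agent.Helper92.SLM.M_HER
import Pool.Agent.Helper6.SLM.M_SER
import Pool.Agent.Helper63.SLM.M_LEV
import Pool.Agent.Helper81.SLM.M_RAT
import Pool.Agent.Helper65.SLM.M_CON
import Pool.Agent.Helper54.SL.M_RT
import Pool.Agent.Helper87.SL.M_SAL
import Pool.Agent.Helper90.SL.M_SCH
import Pool.Agent.Helper50.SL.M_SIE

/-!
# Project SL, part 2: assembly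
-/

set_option autoImplicit false

open MeasureTheory Set

namespace Pool.Agent.Helper53.SLM

open Pool.Agent.Helper53.SL

theorem hMmp' : StMmp := Pool.Agent.Helper86.SLM.hMmp Pool.Agent.Helper22.SLM.hLtp

theorem hMem' : StMem := fun G hG => by
  have h := hMmp' G hG 2
  exact_mod_cast h

theorem hUnp' : StUnp := Pool.Agent.Helper2.SLM.hUnp Pool.Agent.Helper22.SLM.hLtp

theorem hLev' : StLev := Pool.Agent.Helper63.SLM.hLev hMem' Pool.Agent.Helper87.SLM.hToe
  Pool.Agent.Helper92.SLM.hHer Pool.Agent.Helper6.SLM.hSer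

theorem hRat' : StRat := Pool.Agent.Helper81.SLM.hRat Pool.Agent.Helper66.SLM.hDet
  Pool.Agent.Helper43.SL.hKro Pool.Agent.Helper97.SL.hFat

theorem hCon' : StCon := Pool.Agent.Helper65.SLM.hCon

theorem hDtp' : StDtp := Pool.Agent.Helper1.SLM.hDtp hMmp' (Pool.Agent.Helper65.SL.hFou hMem')
  (Pool.Agent.Helper2.SLM.hLpl Pool.Agent.Helper75.SL.hBes) Pool.Agent.Helper37.SL.hPow

theorem hLms' : StLms := hLms Pool.Agent.Helper76.SL.hGam Pool.Agent.Helper34.SLM.hSps
  (Pool.Agent.Helper57.SL.hLam Pool.Agent.Helper76.SL.hGam)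

theorem hPsa' : StPsa := Pool.Agent.Helper38.SLM.hPsa Pool.Agent.Helper97.SL.hFat

theorem hSal' : StSal := Pool.Agent.Helper87.SL.hSal Pool.Agent.Helper54.SL.hRt

theorem hSie' : StSie := Pool.Agent.Helper50.SL.hSie Pool.Agent.Helper90.SL.hSch

end Pool.Agent.Helper53.SLM
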