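import Pool.Agent.Helper53.SLM.M_MAIN2

/-!
# Project SL, part 2: the class of bounded characteristic
-/

set_option autoImplicit false

open Polynomial Filter Topology MeasureTheory Set
open Pool.Agent.Helper96.Salem (lm IsPisot PK)

noncomputable section

namespace Pool.Agent.Helper53.SLM

open Pool.Agent.Helper53.SL

/-- the mean over the unit circle of the positive part of `log |A| - log |Q|` -/
def chr (A Q : ℤ[X]) : ℝ :=
  Real.circleAverage (fun z : ℂ => max (Real.log ‖aeval z A‖ - Real.log ‖aeval z Q‖) 0) 0 1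

theorem avg_log_eq {A : ℤ[X]} {x : ℝ} (h : (cx A).mahlerMeasure = x) :
    (2 * Real.pi)⁻¹ * ∫ t in (0 : ℝ)..2 * Real.pi, Real.log ‖(cx A).eval (circleMap 0 1 t)‖ =
      Real.log x := by
  rw [← h, ← logMahlerMeasure_eq_log_MahlerMeasure, logMahlerMeasure_def, Real.circleAverage_def,
    smul_eq_mul]

theorem int_log (hMmp : StMmp) {A : ℤ[X]} (hA : cx A ≠ 0) :
    IntervalIntegrable (fun t => Real.log ‖(cx A).eval (circleMap 0 1 t)‖) volume 0 (2 * Real.pi) := by
  have hpi := Real.pi_pos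
  rw [intervalIntegrable_iff_integrableOn_Ioc_of_le (by linarith)]
  have h1 := hMmp (cx A) hA 1
  rw [Nat.cast_one] at h1
  exact memLp_one_iff_integrable.1 h1

theorem momp_le_chr (hMmp : StMmp) {A Q : ℤ[X]} {τ : ℝ} (hτ : 1 < τ) (hA : (cx A).mahlerMeasure = τ)
    (hQ : (cx Q).mahlerMeasure = 1) : momp 1 A Q ≤ 2 * chr A Q := by
  have hA0 : cx A ≠ 0 := cx_ne_zero (by rw [hA]; linarith)
  have hQ0 : cx Q ≠ 0 := cx_ne_zero (by rw [hQ]; exact one_pos)
  have hiA := int_log hMmp hA0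
  have hiQ := int_log hMmp hQ0
  have hi : IntervalIntegrable (LF A Q) volume 0 (2 * Real.pi) := hiA.sub hiQ
  have hip : IntervalIntegrable (fun t => max (LF A Q t) 0) volume 0 (2 * Real.pi) := by
    have h1 : (fun t => max (LF A Q t) 0) = fun t => (1 / 2 : ℝ) * (LF A Q t + |LF A Q t|) := by
      funext t
      rcases le_total (LF A Q t) 0 with h | h
      · rw [max_eq_right h, abs_of_nonpos h]; ring
      · rw [max_eq_left h, abs_of_nonneg h]; ring
    rw [h1]
    exact (hi.add hi.abs).const_mul _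
  have hav : (2 * Real.pi)⁻¹ * ∫ t in (0 : ℝ)..2 * Real.pi, LF A Q t = Real.log τ := by
    have h1 : ∫ t in (0 : ℝ)..2 * Real.pi, LF A Q t =
        (∫ t in (0 : ℝ)..2 * Real.pi, Real.log ‖(cx A).eval (circleMap 0 1 t)‖) -
          ∫ t in (0 : ℝ)..2 * Real.pi, Real.log ‖(cx Q).eval (circleMap 0 1 t)‖ :=
      intervalIntegral.integral_sub hiA hiQ
    rw [h1, mul_sub, avg_log_eq hA, avg_log_eq hQ, Real.log_one, sub_zero]
  have hc : chr A Q = (2 * Real.pi)⁻¹ * ∫ t in (0 : ℝ)..2 * Real.pi, max (LF A Q t) 0 := by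
    unfold chr
    rw [Real.circleAverage_def, smul_eq_mul]
    simp only [← cx_eval]
    rfl
  have hm : momp 1 A Q = (2 * Real.pi)⁻¹ * ∫ t in (0 : ℝ)..2 * Real.pi,
      (2 * max (LF A Q t) 0 - LF A Q t) := by
    rw [momp_def]
    congr 1
    refine intervalIntegral.integral_congr fun t _ => ?_
    show |LF A Q t| ^ (1 : ℝ) = 2 * max (LF A Q t) 0 - LF A Q t
    rw [Real.rpow_one]
    rcases le_total (LF A Q t) 0 with h | h
    · rw [max_eq_right h, abs_of_nonpos h]; ring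
    · rw [max_eq_left h, abs_of_nonneg h]; ring
  rw [hm, intervalIntegral.integral_sub (hip.const_mul 2) hi, mul_sub, hav,
    intervalIntegral.integral_const_mul, hc]
  have h5 : 0 ≤ Real.log τ := Real.log_nonneg hτ.le
  linarith

/-- Salem numbers with bounded characteristic (modulo cyclotomic polynomials) -/
def TC (B : ℝ) : Set ℝ := {τ | IsSalem τ ∧ ∃ A Q : ℤ[X], aeval τ A = 0 ∧ (cx A).mahlerMeasure = τ ∧
  (cx Q).mahlerMeasure = 1 ∧ chr A Q ≤ B}

theorem TC_sub (hMmp : StMmp) (B : ℝ) : TC B ⊆ TP 1 (2 * B) := by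
  rintro τ ⟨h1, A, Q, h2, h3, h4, h5⟩
  exact ⟨h1, A, Q, h2, h3, h4, (momp_le_chr hMmp h1.2.1 h3 h4).trans (by linarith)⟩

theorem TC_limit (hMmp : StMmp) (hLev : StLev) (hRat : StRat) (hCon : StCon) {B c : ℝ}
    (h : AccPt c (𝓟 (TC B))) : c = 1 ∨ IsPisot c ∨ IsSalem c :=
  limit_one hMmp hLev hRat hCon le_rfl (h.mono (principal_mono.2 (TC_sub hMmp B)))

theorem TC_exhaust {τ : ℝ} (h : IsSalem τ) : ∃ B : ℝ, τ ∈ TC B :=
  ⟨chr (minpoly ℤ τ) 1, h, minpoly ℤ τ, 1, minpoly.aeval ℤ τ, mahler_minpoly h, mahler_one, le_rfl⟩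

/-- polynomials with bounded `L^q` norm, `q > 0` -/
theorem chr_le (A : ℤ[X]) (hA : A ≠ 0) {q L : ℝ} (hq : 0 < q)
    (h : Real.circleAverage (fun z : ℂ => ‖aeval z A‖ ^ q) 0 1 ≤ L) : chr A 1 ≤ L / q := by
  have hpi := Real.pi_pos
  have h2pi : (0 : ℝ) < 2 * Real.pi := by linarith
  have hcont : Continuous fun t : ℝ => ‖aeval (circleMap 0 1 t) A‖ :=
    ((A.continuous_aeval).comp (continuous_circleMap 0 1)).norm
  have hcont2 : Continuous fun t : ℝ => ‖aeval (circleMap 0 1 t) A‖ ^ q :=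
    hcont.rpow_const fun _ => Or.inr hq.le
  have h3 : ∀ t : ℝ, max (Real.log ‖aeval (circleMap 0 1 t) A‖ -
      Real.log ‖aeval (circleMap 0 1 t) (1 : ℤ[X])‖) 0 ≤ q⁻¹ * ‖aeval (circleMap 0 1 t) A‖ ^ q := by
    intro t
    rw [map_one, norm_one, Real.log_one, sub_zero]
    have hx : 0 ≤ ‖aeval (circleMap 0 1 t) A‖ := norm_nonneg _
    refine max_le ?_ (by positivity)
    rcases hx.eq_or_lt with h0 | h0
    · rw [← h0, Real.log_zero]; positivity
    · have h4 : Real.log (‖aeval (circleMap 0 1 t) A‖ ^ q) ≤ ‖aeval (circleMap 0 1 t) A‖ ^ q - 1 :=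
        Real.log_le_sub_one_of_pos (Real.rpow_pos_of_pos h0 q)
      rw [Real.log_rpow h0] at h4
      rw [inv_mul_eq_div, le_div_iff₀ hq]
      linarith
  have h5 : chr A 1 ≤ (2 * Real.pi)⁻¹ * ∫ t in (0 : ℝ)..2 * Real.pi,
      q⁻¹ * ‖aeval (circleMap 0 1 t) A‖ ^ q := by
    unfold chr
    rw [Real.circleAverage_def, smul_eq_mul]
    refine mul_le_mul_of_nonneg_left ?_ (inv_pos.2 h2pi).le
    refine intervalIntegral.integral_mono_on_of_le_Ioo h2pi.le ?_ ?_ fun t _ => h3 t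
    · rw [intervalIntegrable_iff_integrableOn_Ioc_of_le h2pi.le]
      refine Integrable.mono' (g := fun t => q⁻¹ * ‖aeval (circleMap 0 1 t) A‖ ^ q) ?_ ?_ ?_
      · exact ((hcont2.const_mul q⁻¹).intervalIntegrable 0 (2 * Real.pi)).1
      · refine Measurable.aestronglyMeasurable ?_
        refine Measurable.max ?_ measurable_const
        exact (Real.measurable_log.comp hcont.measurable).sub
          (Real.measurable_log.comp (((1 : ℤ[X]).continuous_aeval.comp
            (continuous_circleMap 0 1)).norm.measurable))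
      · exact Eventually.of_forall fun t => by
          rw [Real.norm_eq_abs, abs_of_nonneg (le_max_right _ _)]
          exact h3 t
    · exact (hcont2.const_mul q⁻¹).intervalIntegrable 0 (2 * Real.pi)
  rw [Real.circleAverage_def, smul_eq_mul] at h
  rw [intervalIntegral.integral_const_mul] at h5
  rw [le_div_iff₀ hq]
  have h6 : chr A 1 * q ≤ ((2 * Real.pi)⁻¹ * (q⁻¹ *
      ∫ t in (0 : ℝ)..2 * Real.pi, ‖aeval (circleMap 0 1 t) A‖ ^ q)) * q :=
    mul_le_mul_of_nonneg_right h5 hq.le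
  have h7 : ((2 * Real.pi)⁻¹ * (q⁻¹ *
      ∫ t in (0 : ℝ)..2 * Real.pi, ‖aeval (circleMap 0 1 t) A‖ ^ q)) * q =
      (2 * Real.pi)⁻¹ * ∫ t in (0 : ℝ)..2 * Real.pi, ‖aeval (circleMap 0 1 t) A‖ ^ q := by
    field_simp
  rw [h7] at h6
  exact h6.trans h

end Pool.Agent.Helper53.SLM

end
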