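import Pool.Agent.Helper53.SL.M_LIM
import Pool.Agent.Helper53.SL.St2

/-!
# Project SL, part 2, module LMS: the core argument with `2m`-th powers
-/

set_option autoImplicit false

open Polynomial Filter Topology MeasureTheory Set

noncomputable section

namespace Pool.Agent.Helper53.SLM

open Pool.Agent.Helper53.SL

theorem abs_le_of_pow {m : ℕ} (hm : 1 ≤ m) {x C : ℝ} (hC : 0 ≤ C) (h : x ^ (2 * m) ≤ C) :
    |x| ≤ C + 1 := by
  by_cases h1 : |x| ≤ 1
  · linarith
  · have h2 : 1 ≤ |x| := (not_le.1 h1).le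
    have h3 : |x| ≤ |x| ^ (2 * m) := le_self_pow₀ h2 (by omega)
    have h4 : |x| ^ (2 * m) = x ^ (2 * m) := (even_two_mul m).pow_abs x
    linarith

theorem sub_pow_even (m : ℕ) (x y : ℝ) :
    (x - y) ^ (2 * m) ≤ 2 ^ (2 * m) * (x ^ (2 * m) + y ^ (2 * m)) := by
  rw [← (even_two_mul m).pow_abs (x - y), ← (even_two_mul m).pow_abs x, ← (even_two_mul m).pow_abs y]
  have h1 : |x - y| ≤ |x| + |y| := abs_sub x y
  have h2 : |x - y| ^ (2 * m) ≤ (|x| + |y|) ^ (2 * m) := pow_le_pow_left₀ (abs_nonneg _) h1 _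
  have h3 : (|x| + |y|) ^ (2 * m) ≤ 2 ^ (2 * m - 1) * (|x| ^ (2 * m) + |y| ^ (2 * m)) :=
    add_pow_le (abs_nonneg _) (abs_nonneg _) _
  have h4 : (2 : ℝ) ^ (2 * m - 1) ≤ 2 ^ (2 * m) := pow_le_pow_right₀ (by norm_num) (by omega)
  have h5 : 0 ≤ |x| ^ (2 * m) + |y| ^ (2 * m) := by positivity
  exact h2.trans (h3.trans (mul_le_mul_of_nonneg_right h4 h5))

theorem even_pow_nonneg (m : ℕ) (x : ℝ) : 0 ≤ x ^ (2 * m) := (even_two_mul m).pow_nonneg x

theorem hLms (h1 : StGam) (h2 : StSps) (h3 : StLam) : StLms := by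
  intro m C c hm h
  have hNB : (𝓝[≠] c ⊓ 𝓟 {τ : ℝ | 1 < τ ∧ Dats m C τ}).NeBot := h
  set U : Ultrafilter ℝ := Ultrafilter.of (𝓝[≠] c ⊓ 𝓟 {τ : ℝ | 1 < τ ∧ Dats m C τ}) with hUdef
  have hU : (U : Filter ℝ) ≤ 𝓝[≠] c ⊓ 𝓟 {τ : ℝ | 1 < τ ∧ Dats m C τ} := Ultrafilter.of_le _
  have hT : ∀ᶠ τ in (U : Filter ℝ), 1 < τ ∧ Dats m C τ :=
    (hU.trans inf_le_right) (mem_principal_self _)
  have hne : ∀ᶠ τ in (U : Filter ℝ), τ ≠ c := (hU.trans inf_le_left) self_mem_nhdsWithin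
  have hUc : (U : Filter ℝ) ≤ 𝓝 c := (hU.trans inf_le_left).trans nhdsWithin_le_nhds
  have hlim : Tendsto (fun τ : ℝ => τ) (U : Filter ℝ) (𝓝 c) := hUc
  have hc1 : 1 ≤ c := ge_of_tendsto hlim (hT.mono fun τ hτ => hτ.1.le)
  -- the integers
  have hex : ∀ τ : ℝ, ∃ g : ℕ → ℤ, Dats m C τ →
      ∀ N : ℕ, ∑ n ∈ Finset.Icc 1 N, qq τ g n ^ (2 * m) ≤ C := by
    intro τ
    by_cases hd : Dats m C τ
    · obtain ⟨g, hg⟩ := hd
      exact ⟨g, fun _ => hg⟩
    · exact ⟨0, fun h => absurd h hd⟩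
  choose g hg using hex
  have hC0 : 0 ≤ C := by
    obtain ⟨τ, hτ⟩ := hT.exists
    have := hg τ hτ.2 0
    simpa using this
  -- bounds for the traces
  have hqb : ∀ n : ℕ, 1 ≤ n → ∀ᶠ τ in (U : Filter ℝ), |qq τ (g τ) n| ≤ C + 1 := by
    intro n hn
    filter_upwards [hT] with τ hτ
    have h4 := hg τ hτ.2 n
    have h5 : qq τ (g τ) n ^ (2 * m) ≤ C :=
      (Finset.single_le_sum (f := fun n => qq τ (g τ) n ^ (2 * m)) (fun i _ => even_pow_nonneg m _)
        (Finset.mem_Icc.2 ⟨hn, le_rfl⟩)).trans h4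
    exact abs_le_of_pow hm hC0 h5
  have hτb : ∀ᶠ τ in (U : Filter ℝ), τ ≤ c + 1 :=
    (hlim.eventually (gt_mem_nhds (by linarith : c < c + 1))).mono fun τ hτ => le_of_lt hτ
  have hpb : ∀ n : ℕ, 1 ≤ n → ∃ G : ℤ, ∀ᶠ τ in (U : Filter ℝ),
      ∑ d ∈ n.divisors, (d : ℤ) * g τ d = G := by
    intro n hn
    obtain ⟨M, hM⟩ := exists_int_gt (n * (C + 1) + (c + 1) ^ n + 1)
    refine Pool.Agent.Helper96.Salem.uf_const U _ M ?_
    filter_upwards [hT, hqb n hn, hτb] with τ hτ hq hb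
    have hn0 : (0 : ℝ) < n := by exact_mod_cast hn
    have h4 : ((∑ d ∈ n.divisors, (d : ℤ) * g τ d : ℤ) : ℝ) = n * qq τ (g τ) n + τ ^ n - (τ⁻¹) ^ n := by
      unfold qq
      push_cast
      field_simp
      ring
    have h5 : |((∑ d ∈ n.divisors, (d : ℤ) * g τ d : ℤ) : ℝ)| ≤ M := by
      rw [h4]
      have h6 : |(n : ℝ) * qq τ (g τ) n| ≤ n * (C + 1) := by
        rw [abs_mul, abs_of_pos hn0]
        exact mul_le_mul_of_nonneg_left hq hn0.le
      have h7 : |τ ^ n| ≤ (c + 1) ^ n := by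
        rw [abs_of_pos (pow_pos (by linarith [hτ.1]) n)]
        exact pow_le_pow_left₀ (by linarith [hτ.1]) hb n
      have h8 : |(τ⁻¹) ^ n| ≤ 1 := by
        have : 0 < τ⁻¹ := inv_pos.2 (by linarith [hτ.1])
        rw [abs_of_pos (pow_pos this n)]
        exact pow_le_one₀ this.le (inv_le_one_of_one_le₀ hτ.1.le)
      have h9 := abs_sub (n * qq τ (g τ) n + τ ^ n) ((τ⁻¹) ^ n)
      have h10 := abs_add_le ((n : ℝ) * qq τ (g τ) n) (τ ^ n)
      linarith
    have h11 : ((|∑ d ∈ n.divisors, (d : ℤ) * g τ d| : ℤ) : ℝ) ≤ (M : ℝ) := by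
      rw [Int.cast_abs]; exact h5
    exact_mod_cast h11
  have hGex : ∀ n : ℕ, ∃ G : ℤ, 1 ≤ n → ∀ᶠ τ in (U : Filter ℝ), g τ n = G := by
    intro n
    induction n using Nat.strong_induction_on with
    | _ n ih =>
      by_cases hn : 1 ≤ n
      · choose! G hG using ih
        obtain ⟨P, hP⟩ := hpb n hn
        have hall : ∀ᶠ τ in (U : Filter ℝ), ∀ d ∈ n.properDivisors, g τ d = G d := by
          rw [Filter.eventually_all_finset]
          intro d hd
          exact hG d (Nat.mem_properDivisors.1 hd).2 (Nat.pos_of_mem_properDivisors hd)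
        have hn0 : (n : ℤ) ≠ 0 := by exact_mod_cast (by omega : n ≠ 0)
        -- the value is constant
        refine ⟨(P - ∑ d ∈ n.properDivisors, (d : ℤ) * G d) / n, fun _ => ?_⟩
        filter_upwards [hP, hall] with τ h4 h5
        rw [← Nat.insert_self_properDivisors (by omega), Finset.sum_insert Nat.self_notMem_properDivisors,
          Finset.sum_congr rfl (fun d hd => by rw [h5 d hd])] at h4
        have h6 : P - ∑ d ∈ n.properDivisors, (d : ℤ) * G d = n * g τ n := by linarith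
        rw [h6, Int.mul_ediv_cancel_left _ hn0]
      · exact ⟨0, fun h => absurd h hn⟩
  choose G hG using hGex
  have hGall : ∀ N : ℕ, ∀ᶠ τ in (U : Filter ℝ), ∀ n ∈ Finset.Icc 1 N, g τ n = G n := by
    intro N
    rw [Filter.eventually_all_finset]
    intro n hn
    exact hG n (Finset.mem_Icc.1 hn).1
  have hqeq : ∀ (τ : ℝ) (N : ℕ), (∀ n ∈ Finset.Icc 1 N, g τ n = G n) → ∀ n ∈ Finset.Icc 1 N,
      qq τ (g τ) n = qq τ G n := by
    intro τ N h4 n hn
    unfold qq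
    rw [Finset.mem_Icc] at hn
    congr 3
    refine Finset.sum_congr rfl fun d hd => ?_
    rw [h4 d (Finset.mem_Icc.2 ⟨Nat.pos_of_mem_divisors hd, (Nat.divisor_le hd).trans hn.2⟩)]
  have hq : ∀ N : ℕ, ∑ n ∈ Finset.Icc 1 N, qq c G n ^ (2 * m) ≤ C := by
    intro N
    have h4 : Tendsto (fun τ : ℝ => ∑ n ∈ Finset.Icc 1 N, qq τ G n ^ (2 * m)) (U : Filter ℝ)
        (𝓝 (∑ n ∈ Finset.Icc 1 N, qq c G n ^ (2 * m))) :=
      tendsto_finsetSum _ fun n _ => ((qq_tendsto hc1 G n).mono_left hUc).pow (2 * m)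
    refine le_of_tendsto h4 ?_
    filter_upwards [hT, hGall N] with τ h5 h6
    have h7 := hg τ h5.2 N
    rwa [Finset.sum_congr rfl (fun n hn => by rw [hqeq τ N h6 n hn])] at h7
  -- the first index with a large difference
  classical
  set n1 : ℝ → ℕ := fun τ => if hx : ∃ n : ℕ, 1 ≤ n ∧ 1 / 8 ≤ |gam τ c n| then Nat.find hx else 0 with hn1
  have hn1p : ∀ᶠ τ in (U : Filter ℝ), 1 ≤ n1 τ ∧ 1 / 8 ≤ |gam τ c (n1 τ)| ∧
      ∀ d : ℕ, 1 ≤ d → d < n1 τ → |gam τ c d| < 1 / 8 := by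
    filter_upwards [hT, hne] with τ h4 h5
    have hx := (h1 τ c hc1 h4.1 h5).1
    have h6 : n1 τ = Nat.find hx := by rw [hn1]; simp only [dif_pos hx]
    rw [h6]
    refine ⟨(Nat.find_spec hx).1, (Nat.find_spec hx).2, fun d hd hd2 => ?_⟩
    have := Nat.find_min hx hd2
    rw [not_and] at this
    exact not_le.1 (this hd)
  have hn1t : Tendsto n1 (U : Filter ℝ) atTop := by
    rw [tendsto_atTop]
    intro M
    have h4 : ∀ᶠ τ in (U : Filter ℝ), ∀ n ∈ Finset.Icc 1 M, |gam τ c n| < 1 / 8 := by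
      rw [Filter.eventually_all_finset]
      intro n _
      have h5 := ((gam_tendsto hc1 n).mono_left hUc).abs
      rw [abs_zero] at h5
      exact h5.eventually (gt_mem_nhds (by norm_num : (0 : ℝ) < 1 / 8))
    filter_upwards [h4, hn1p] with τ h5 h6
    by_contra hcon
    have := h5 (n1 τ) (Finset.mem_Icc.2 ⟨h6.1, (not_le.1 hcon).le⟩)
    linarith [h6.2.1]
  -- the small error
  have heps : ∀ᶠ τ in (U : Filter ℝ), √|τ - c| * (1 + Real.log (n1 τ)) ≤ 1 / 8 := by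
    have h4 : Tendsto (fun τ : ℝ => |τ - c|) (U : Filter ℝ) (𝓝[>] 0) := by
      rw [tendsto_nhdsWithin_iff]
      constructor
      · have := (hlim.sub_const c).abs
        simpa using this
      · filter_upwards [hne] with τ h5
        exact abs_pos.2 (sub_ne_zero.2 h5)
    have h5 := (eps_tendsto.comp h4).eventually (gt_mem_nhds (by norm_num : (0 : ℝ) < 1 / 8))
    have h6 : ∀ᶠ τ in (U : Filter ℝ), |τ - c| < 1 / 2 := by
      have := (hlim.sub_const c).abs
      simp only [sub_self, abs_zero] at this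
      exact this.eventually (gt_mem_nhds (by norm_num))
    filter_upwards [h5, h6, hn1p, hT, hne, hn1t.eventually (eventually_ge_atTop 2)] with τ h7 h8 h9 h10 h11 h12
    refine le_trans ?_ h7.le
    refine mul_le_mul_of_nonneg_left ?_ (Real.sqrt_nonneg _)
    have hD : 0 < |τ - c| := abs_pos.2 (sub_ne_zero.2 h11)
    have h13 := (h1 τ c hc1 h10.1 h11).2.2.1 (n1 τ - 1) (by omega)
      (h9.2.2 (n1 τ - 1) (by omega) (by omega)).le
    have h14 : ((n1 τ - 1 : ℕ) : ℝ) = (n1 τ : ℝ) - 1 := by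
      rw [Nat.cast_sub (by omega)]; simp
    rw [h14] at h13
    have h15 : (τ - c) ^ 2 = |τ - c| ^ 2 := (sq_abs _).symm
    rw [h15] at h13
    have h16 : (n1 τ : ℝ) ≤ |τ - c|⁻¹ ^ 2 := by
      rw [inv_pow, ← one_div, le_div_iff₀ (by positivity)]
      nlinarith
    have h17 : (0 : ℝ) < n1 τ := by exact_mod_cast (by omega : 0 < n1 τ)
    have := Real.log_le_log h17 h16
    show 1 + Real.log (n1 τ) ≤ 1 + Real.log (|τ - c|⁻¹ ^ 2)
    linarith
  -- the main bound
  obtain ⟨K, hK⟩ := h2 m (2 ^ (2 * m) * (2 * C)) hm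
  have hmain : ∀ᶠ τ in (U : Filter ℝ),
      ∑ n ∈ Finset.Ico 1 (2 * n1 τ), (((G n - g τ n : ℤ) : ℝ) + gam τ c n) ^ (2 * m) ≤ K := by
    filter_upwards [hT, hne, hn1p, heps] with τ h4 h5 h6 h7
    have hb := h1 τ c hc1 h4.1 h5
    refine hK (fun n => G n - g τ n) (fun n => qq c G n - qq τ (g τ) n) (gam τ c) (n1 τ) (√|τ - c|)
      (Real.sqrt_nonneg _) ?_ ?_ (fun d hd hd2 => (h6.2.2 d hd hd2).le)
      (fun m' d hm' hmd hd => hb.2.1 m' d hm' hmd (h6.2.2 d (by omega) hd).le) h7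
    · intro n hn
      have hn0 : (n : ℝ) ≠ 0 := by exact_mod_cast (by omega : n ≠ 0)
      unfold qq gam
      push_cast
      rw [Finset.sum_congr rfl (fun (d : ℕ) _ => mul_sub (d : ℝ) (G d : ℝ) (g τ d : ℝ)),
        Finset.sum_sub_distrib]
      field_simp
      ring
    · intro N
      have h8 : ∀ n ∈ Finset.Icc 1 N, (qq c G n - qq τ (g τ) n) ^ (2 * m) ≤
          2 ^ (2 * m) * (qq c G n ^ (2 * m) + qq τ (g τ) n ^ (2 * m)) := fun n _ =>
        sub_pow_even m _ _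
      refine (Finset.sum_le_sum h8).trans ?_
      rw [← Finset.mul_sum, Finset.sum_add_distrib]
      exact mul_le_mul_of_nonneg_left (by linarith [hq N, hg τ h4.2 N]) (by positivity)
  have hK0 : 0 ≤ K := by
    obtain ⟨τ, hτ⟩ := hmain.exists
    exact (Finset.sum_nonneg fun _ _ => even_pow_nonneg m _).trans hτ
  have hmain2 : ∀ N : ℕ, ∀ᶠ τ in (U : Filter ℝ), ∑ k ∈ Finset.range N,
      (((G (n1 τ + k) - g τ (n1 τ + k) : ℤ) : ℝ) + gam τ c (n1 τ + k)) ^ (2 * m) ≤ K := by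
    intro N
    filter_upwards [hmain, hn1p, hn1t.eventually (eventually_ge_atTop N)] with τ h4 h5 h6
    refine le_trans ?_ h4
    rw [← Finset.sum_image (f := fun n => (((G n - g τ n : ℤ) : ℝ) + gam τ c n) ^ (2 * m))
      (g := fun k => n1 τ + k) (fun i _ j _ hij => by simpa using hij)]
    refine Finset.sum_le_sum_of_subset_of_nonneg ?_ fun _ _ _ => even_pow_nonneg m _
    intro n hn
    rw [Finset.mem_image] at hn
    obtain ⟨k, hk, rfl⟩ := hn
    rw [Finset.mem_range] at hk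
    rw [Finset.mem_Ico]
    omega
  obtain ⟨lam, hlam0, hlam1, hlamk⟩ := h3 c U n1 hc1 hlim (hT.and hne |>.mono fun τ hτ => ⟨hτ.1.1, hτ.2⟩)
    hn1t (hn1p.mono fun τ hτ => hτ.2)
  -- the case c = 1 is impossible
  have hc : 1 < c := by
    rcases hc1.eq_or_lt with hc | hc
    · exfalso
      have hl := hlam1 hc.symm
      obtain ⟨N, hN⟩ := exists_nat_gt (K * 16 ^ (2 * m))
      have h4 : ∀ᶠ τ in (U : Filter ℝ), ∀ k ∈ Finset.range N, |gam τ c (n1 τ + k) - lam| < 1 / 16 := by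
        rw [Filter.eventually_all_finset]
        intro k _
        have h5 := hlamk k
        rw [← hc, one_pow, mul_one, hc] at h5
        have h6 := (h5.sub_const lam).abs
        simp only [sub_self, abs_zero] at h6
        exact h6.eventually (gt_mem_nhds (by norm_num))
      obtain ⟨τ, h5, h6⟩ := ((hmain2 N).and h4).exists
      have h7 : ∀ k ∈ Finset.range N, ((1 / 16 : ℝ) ^ (2 * m)) ≤
          (((G (n1 τ + k) - g τ (n1 τ + k) : ℤ) : ℝ) + gam τ c (n1 τ + k)) ^ (2 * m) := by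
        intro k hk
        have h8 := h6 k hk
        set A : ℤ := G (n1 τ + k) - g τ (n1 τ + k) with hA
        set y : ℝ := gam τ c (n1 τ + k) with hy
        have h9 : 1 / 16 ≤ |(A : ℝ) + y| := by
          have h10 : |y| ≤ 3 / 16 := by
            have := abs_add_le (y - lam) lam
            rw [sub_add_cancel] at this
            linarith
          have h11 : 1 / 16 ≤ |y| := by
            have := abs_sub_abs_le_abs_sub lam y
            rw [abs_sub_comm lam y] at this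
            linarith
          by_cases hA0 : A = 0
          · rw [hA0]; simpa using h11
          · have h12 : (1 : ℝ) ≤ |(A : ℝ)| := by
              have : 1 ≤ |A| := Int.one_le_abs hA0
              exact_mod_cast this
            have h13 := abs_sub_abs_le_abs_sub (A : ℝ) (-y)
            rw [abs_neg, sub_neg_eq_add] at h13
            linarith
        have h14 : (1 / 16 : ℝ) ^ (2 * m) ≤ |(A : ℝ) + y| ^ (2 * m) :=
          pow_le_pow_left₀ (by norm_num) h9 _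
        rwa [(even_two_mul m).pow_abs] at h14
      have h8 := Finset.sum_le_sum h7
      rw [Finset.sum_const, Finset.card_range, nsmul_eq_mul] at h8
      have h9 : (N : ℝ) * (1 / 16) ^ (2 * m) ≤ K := h8.trans h5
      rw [one_div, inv_pow, ← div_eq_mul_inv, div_le_iff₀ (by positivity)] at h9
      linarith
    · exact hc
  refine ⟨hc, ?_⟩
  -- the integers of the limit
  have hα : ∀ k : ℕ, ∃ A : ℤ, ∀ᶠ τ in (U : Filter ℝ), G (n1 τ + k) - g τ (n1 τ + k) = A := by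
    intro k
    obtain ⟨M, hM⟩ := exists_int_gt (K + 1 + (|lam * c ^ k| + 1))
    refine Pool.Agent.Helper96.Salem.uf_const U _ M ?_
    have h4 : ∀ᶠ τ in (U : Filter ℝ), |gam τ c (n1 τ + k)| < |lam * c ^ k| + 1 :=
      (hlamk k).abs.eventually (gt_mem_nhds (by linarith))
    filter_upwards [h4, hmain2 (k + 1)] with τ h5 h6
    have h7 : (((G (n1 τ + k) - g τ (n1 τ + k) : ℤ) : ℝ) + gam τ c (n1 τ + k)) ^ (2 * m) ≤ K :=
      (Finset.single_le_sum (f := fun k => (((G (n1 τ + k) - g τ (n1 τ + k) : ℤ) : ℝ) +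
        gam τ c (n1 τ + k)) ^ (2 * m)) (fun i _ => even_pow_nonneg m _)
        (Finset.self_mem_range_succ k)).trans h6
    have h8 := abs_le_of_pow hm hK0 h7
    have h9 : |((G (n1 τ + k) - g τ (n1 τ + k) : ℤ) : ℝ)| ≤ M := by
      have := abs_sub (((G (n1 τ + k) - g τ (n1 τ + k) : ℤ) : ℝ) + gam τ c (n1 τ + k))
        (gam τ c (n1 τ + k))
      rw [add_sub_cancel_right] at this
      linarith
    have h11 : ((|G (n1 τ + k) - g τ (n1 τ + k)| : ℤ) : ℝ) ≤ (M : ℝ) := by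
      rw [Int.cast_abs]; exact h9
    exact_mod_cast h11
  choose x hx using hα
  refine ⟨-lam, x, neg_ne_zero.2 hlam0, ?_⟩
  have hsum : ∀ N : ℕ, ∑ k ∈ Finset.range N, ((x k : ℝ) - -lam * c ^ k) ^ (2 * m) ≤ K := by
    intro N
    have h4 : Tendsto (fun τ : ℝ => ∑ k ∈ Finset.range N, ((x k : ℝ) + gam τ c (n1 τ + k)) ^ (2 * m))
        (U : Filter ℝ) (𝓝 (∑ k ∈ Finset.range N, ((x k : ℝ) + lam * c ^ k) ^ (2 * m))) :=
      tendsto_finsetSum _ fun k _ => ((hlamk k).const_add _).pow (2 * m)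
    have h5 : ∀ᶠ τ in (U : Filter ℝ), ∀ k ∈ Finset.range N,
        G (n1 τ + k) - g τ (n1 τ + k) = x k := by
      rw [Filter.eventually_all_finset]
      exact fun k _ => hx k
    have h6 : ∑ k ∈ Finset.range N, ((x k : ℝ) + lam * c ^ k) ^ (2 * m) ≤ K := by
      refine le_of_tendsto h4 ?_
      filter_upwards [h5, hmain2 N] with τ h7 h8
      rw [Finset.sum_congr rfl (fun k hk => by rw [h7 k hk])] at h8
      exact h8
    have h7 : ∀ k ∈ Finset.range N, ((x k : ℝ) - -lam * c ^ k) ^ (2 * m) =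
        ((x k : ℝ) + lam * c ^ k) ^ (2 * m) := fun k _ => by
      rw [neg_mul, sub_neg_eq_add]
    rw [Finset.sum_congr rfl h7]
    exact h6
  have hsummable : Summable fun k : ℕ => ((x k : ℝ) - -lam * c ^ k) ^ (2 * m) :=
    summable_of_sum_range_le (fun _ => even_pow_nonneg m _) hsum
  have hz := hsummable.tendsto_atTop_zero
  rw [Metric.tendsto_atTop] at hz ⊢
  intro ε hε
  obtain ⟨N, hN⟩ := hz (ε ^ (2 * m)) (pow_pos hε _)
  refine ⟨N, fun n hn => ?_⟩
  have h4 := hN n hn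
  rw [dist_zero_right, Real.norm_eq_abs] at h4 ⊢
  rw [abs_pow] at h4
  exact lt_of_pow_lt_pow_left₀ _ hε.le h4

end Pool.Agent.Helper53.SLM

end
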