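import Pool.Agent.Helper53.SL.M_MAIN
import Pool.Agent.Helper53.SL.Bridge
import Pool.Agent.Helper53.SLM.M_LMS

/-!
# Project SL, part 2, module MAIN2
-/

set_option autoImplicit false

open Polynomial Filter Topology MeasureTheory Set
open Pool.Agent.Helper96.Salem (lm IsPisot PK)

noncomputable section

namespace Pool.Agent.Helper53.SLM

open Pool.Agent.Helper53.SL

theorem momp_eq (p : ℝ) (A Q : ℤ[X]) : momp p A Q =
    Real.circleAverage (fun z : ℂ => |Real.log ‖aeval z A‖ - Real.log ‖aeval z Q‖| ^ p) 0 1 := by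
  unfold momp
  simp only [cx_eval]

theorem TP_mono {p B B' : ℝ} (h : B ≤ B') : TP p B ⊆ TP p B' := by
  rintro τ ⟨h1, A, Q, h2, h3, h4, h5⟩
  exact ⟨h1, A, Q, h2, h3, h4, h5.trans h⟩

theorem exhaust (p : ℝ) {τ : ℝ} (h : IsSalem τ) : ∃ B : ℝ, τ ∈ TP p B :=
  ⟨momp p (minpoly ℤ τ) 1, h, minpoly ℤ τ, 1, minpoly.aeval ℤ τ, mahler_minpoly h, mahler_one, le_rfl⟩

theorem cx_ne_zero {A : ℤ[X]} (h : 0 < (cx A).mahlerMeasure) : cx A ≠ 0 := by
  intro h0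
  rw [h0, mahlerMeasure_zero] at h
  exact lt_irrefl _ h

/-- all moments of the logarithmic quotient are finite -/
theorem memLp_LF (hMmp : StMmp) {A Q : ℤ[X]} (hA : cx A ≠ 0) (hQ : cx Q ≠ 0) (m : ℕ) :
    MemLp (LF A Q) m (volume.restrict (Ioc 0 (2 * Real.pi))) :=
  (hMmp (cx A) hA m).sub (hMmp (cx Q) hQ m)

theorem rpow_le_one_add {x p : ℝ} (hx : 0 ≤ x) (m : ℕ) (hp : 0 ≤ p) (hpm : p ≤ m) :
    x ^ p ≤ 1 + x ^ m := by
  by_cases h1 : x ≤ 1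
  · have h2 : x ^ p ≤ 1 := Real.rpow_le_one hx h1 hp
    have h3 : 0 ≤ x ^ m := pow_nonneg hx m
    linarith
  · have h2 : 1 ≤ x := (not_le.1 h1).le
    have h3 : x ^ p ≤ x ^ (m : ℝ) := Real.rpow_le_rpow_of_exponent_le h2 hpm
    rw [Real.rpow_natCast] at h3
    linarith

theorem integrable_rpow (hMmp : StMmp) {A Q : ℤ[X]} (hA : cx A ≠ 0) (hQ : cx Q ≠ 0) {p : ℝ}
    (hp : 0 ≤ p) : Integrable (fun t => |LF A Q t| ^ p) (volume.restrict (Ioc 0 (2 * Real.pi))) := by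
  obtain ⟨m, hm⟩ := exists_nat_ge (max p 1)
  have hm1 : 1 ≤ m := by
    have : (1 : ℝ) ≤ m := (le_max_right _ _).trans hm
    exact_mod_cast this
  have h1 := memLp_LF hMmp hA hQ m
  have h2 : Integrable (fun t => ‖LF A Q t‖ ^ m) (volume.restrict (Ioc 0 (2 * Real.pi))) :=
    h1.integrable_norm_pow (by omega)
  have h3 : Integrable (fun t => 1 + ‖LF A Q t‖ ^ m) (volume.restrict (Ioc 0 (2 * Real.pi))) :=
    (integrable_const _).add h2
  refine h3.mono' ?_ (Eventually.of_forall fun t => ?_)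
  · exact (h1.aestronglyMeasurable.norm.aemeasurable.pow_const p).aestronglyMeasurable
  · rw [Real.norm_eq_abs, abs_of_nonneg (Real.rpow_nonneg (abs_nonneg _) _)]
    exact rpow_le_one_add (abs_nonneg _) m hp ((le_max_left _ _).trans hm)

theorem momp_def (p : ℝ) (A Q : ℤ[X]) :
    momp p A Q = (2 * Real.pi)⁻¹ * ∫ t in (0 : ℝ)..2 * Real.pi, |LF A Q t| ^ p := by
  unfold momp
  rw [Real.circleAverage_def, smul_eq_mul]
  rfl

theorem momp_one_le (hMmp : StMmp) {A Q : ℤ[X]} (hA : cx A ≠ 0) (hQ : cx Q ≠ 0) {p : ℝ}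
    (hp : 1 ≤ p) : momp 1 A Q ≤ 1 + momp p A Q := by
  have hpi := Real.pi_pos
  have h2pi : (0 : ℝ) < 2 * Real.pi := by linarith
  have h1 := integrable_rpow hMmp hA hQ (p := 1) zero_le_one
  have h2 := integrable_rpow hMmp hA hQ (p := p) (by linarith)
  rw [momp_def, momp_def]
  have h3 : ∫ t in (0 : ℝ)..2 * Real.pi, |LF A Q t| ^ (1 : ℝ) ≤
      ∫ t in (0 : ℝ)..2 * Real.pi, (1 + |LF A Q t| ^ p) := by
    rw [intervalIntegral.integral_of_le h2pi.le, intervalIntegral.integral_of_le h2pi.le]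
    refine integral_mono h1 ((integrable_const _).add h2) fun t => ?_
    have hx := abs_nonneg (LF A Q t)
    show |LF A Q t| ^ (1 : ℝ) ≤ 1 + |LF A Q t| ^ p
    by_cases h4 : |LF A Q t| ≤ 1
    · have h5 : |LF A Q t| ^ (1 : ℝ) ≤ 1 := Real.rpow_le_one hx h4 zero_le_one
      have h6 : 0 ≤ |LF A Q t| ^ p := Real.rpow_nonneg hx _
      exact h5.trans (le_add_of_nonneg_right h6)
    · have h5 := Real.rpow_le_rpow_of_exponent_le (not_le.1 h4).le hp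
      exact h5.trans (le_add_of_nonneg_left zero_le_one)
  have h4 : ∫ t in (0 : ℝ)..2 * Real.pi, (1 + |LF A Q t| ^ p) =
      2 * Real.pi + ∫ t in (0 : ℝ)..2 * Real.pi, |LF A Q t| ^ p := by
    rw [intervalIntegral.integral_of_le h2pi.le, intervalIntegral.integral_of_le h2pi.le,
      integral_add (integrable_const _) h2, integral_const]
    simp [h2pi.le]
  rw [h4] at h3
  have h5 := mul_le_mul_of_nonneg_left h3 (inv_pos.2 h2pi).le
  have h6 : (2 * Real.pi)⁻¹ * (2 * Real.pi) = 1 := inv_mul_cancel₀ h2pi.ne'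
  linarith [mul_add (2 * Real.pi)⁻¹ (2 * Real.pi) (∫ t in (0 : ℝ)..2 * Real.pi, |LF A Q t| ^ p)]

theorem Har_mono {B B' r : ℝ} (h : B ≤ B') (h0 : 0 ≤ r) (h1 : r < 1) : Har B r ≤ Har B' r := by
  unfold Har
  exact mul_le_mul_of_nonneg_right h (div_nonneg (by linarith) (by linarith))

theorem Lev_mono {B B' τ : ℝ} (h : B ≤ B') (hτ : 1 < τ) (hL : Lev B τ) : Lev B' τ := by
  obtain ⟨f, g, k, h1, h2, h3, h4, h5, h6, h7⟩ := hL
  refine ⟨f, g, k, h1, (Real.exp_le_exp.2 (by linarith)).trans h2, h3, h4, h5, fun r hr0 hr1 n => ?_,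
    fun z hz => ?_⟩
  · refine (h6 r hr0 hr1 n).trans (mul_le_mul_of_nonneg_left ?_ (by linarith))
    exact Real.exp_le_exp.2 (Har_mono h hr0.le hr1)
  · obtain ⟨w, hw, ha, hb⟩ := h7 z hz
    have hm := Har_mono h (norm_nonneg z) hz
    refine ⟨w, hw, le_trans ?_ ha, hb.trans ?_⟩
    · exact mul_le_mul_of_nonneg_left (Real.exp_le_exp.2 (by linarith)) (norm_nonneg _)
    · exact mul_le_mul_of_nonneg_left (Real.exp_le_exp.2 hm) (norm_nonneg _)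

theorem acc_lev (hMmp : StMmp) (hLev : StLev) {p B c : ℝ} (hp : 1 ≤ p) (h : AccPt c (𝓟 (TP p B))) :
    AccPt c (𝓟 {τ : ℝ | 1 < τ ∧ Lev (1 + B + 2 * Real.log (c + 2)) τ}) := by
  rw [accPt_iff_frequently] at h ⊢
  have h2 : ∀ᶠ τ in 𝓝 c, τ < c + 1 := gt_mem_nhds (by linarith)
  refine (h.and_eventually h2).mono ?_
  rintro τ ⟨⟨h3, hS, A, Q, hAr, hAm, hQm, hm⟩, h5⟩
  have h1 := hS.2.1
  have hA : cx A ≠ 0 := cx_ne_zero (by rw [hAm]; linarith)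
  have hQ : cx Q ≠ 0 := cx_ne_zero (by rw [hQm]; exact one_pos)
  have h6 : momp 1 A Q ≤ 1 + B := (momp_one_le hMmp hA hQ hp).trans (by linarith)
  have h7 := hLev (1 + B) τ A Q h1 hAr hAm hQm h6
  refine ⟨h3, h1, Lev_mono ?_ h1 h7⟩
  have h8 : Real.log (1 + τ) ≤ Real.log (c + 2) := Real.log_le_log (by linarith) (by linarith)
  linarith

theorem one_le_of_acc {s : Set ℝ} (hs : ∀ τ ∈ s, 1 < τ) {c : ℝ} (h : AccPt c (𝓟 s)) : 1 ≤ c := by
  by_contra hcon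
  rw [accPt_iff_frequently] at h
  have h2 : ∀ᶠ τ in 𝓝 c, τ < 1 := gt_mem_nhds (not_le.1 hcon)
  obtain ⟨τ, ⟨-, h3⟩, h4⟩ := (h.and_eventually h2).exists
  linarith [hs τ h3]

/-- the first level: `p = 1` is enough -/
theorem limit_one (hMmp : StMmp) (hLev : StLev) (hRat : StRat) (hCon : StCon) {p B c : ℝ} (hp : 1 ≤ p)
    (h : AccPt c (𝓟 (TP p B))) : c = 1 ∨ IsPisot c ∨ IsSalem c := by
  have hc1 : 1 ≤ c := one_le_of_acc (fun τ hτ => hτ.1.2.1) h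
  rcases hc1.eq_or_lt with hc | hc
  · exact Or.inl hc.symm
  · obtain ⟨N, D, h1, h2, h3⟩ := hRat _ c (acc_lev hMmp hLev hp h)
    exact Or.inr (hCon _ c N D hc h1 h2 h3)

/-- the second level -/
theorem limit_pisot (hMmp : StMmp) (hLev : StLev) (hRat : StRat) (hCon : StCon) (hDtp : StDtp)
    (hLms : StLms) (hPsa : StPsa) {p B c : ℝ} (hp : 1 < p) (h : AccPt c (𝓟 (TP p B))) :
    IsPisot c := by
  obtain ⟨m, C, hm, hD⟩ := hDtp p B hp
  have h1 : AccPt c (𝓟 {τ : ℝ | 1 < τ ∧ Dats m C τ}) :=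
    h.mono (principal_mono.2 fun τ hτ => ⟨hτ.1.2.1, hD τ hτ⟩)
  obtain ⟨hc, lam, x, hlam, hx⟩ := hLms m C c hm h1
  have halg : IsAlgebraic ℚ c := by
    have hint : IsIntegral ℤ c := by
      rcases limit_one hMmp hLev hRat hCon hp.le h with h2 | h2 | h2
      · linarith
      · exact h2.1
      · exact h2.1
    have h3 : IsIntegral ℚ c := hint.tower_top
    exact h3.isAlgebraic
  exact hPsa c lam x hc hlam halg hx

theorem terms_sub (hUnp : StUnp) (k : ℕ) (M : ℝ) {p : ℝ} (hp : 1 ≤ p) : ∃ B : ℝ, ∀ τ : ℝ, IsSalem τ → τ ≤ M →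
    (∃ A : ℤ[X], A ≠ 0 ∧ A.support.card ≤ k ∧ aeval τ A = 0 ∧ (cx A).mahlerMeasure = τ) → τ ∈ TP p B := by
  obtain ⟨B, hB⟩ := hUnp k M p hp
  refine ⟨B, ?_⟩
  rintro τ hS hM ⟨A, hA0, hAk, hAr, hAm⟩
  exact ⟨hS, A, 1, hAr, hAm, mahler_one, hB A hA0 hAk (by rw [hAm]; exact hM)⟩

theorem theta_acc (hUnp : StUnp) (hSal : StSal) {p : ℝ} (hp : 1 ≤ p) :
    ∃ B0 : ℝ, ∀ B ≥ B0, ∀ θ : ℝ, θ ^ 3 - θ - 1 = 0 → AccPt θ (𝓟 (TP p B)) := by
  obtain ⟨B0, hB0⟩ := terms_sub hUnp 6 (3 / 2) hp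
  refine ⟨B0, fun B hB θ hθ => (hSal θ hθ).mono (principal_mono.2 ?_)⟩
  rintro τ ⟨hS, hlt, A, hAk, hAr, hAm⟩
  refine TP_mono hB (hB0 τ hS hlt.le ⟨A, ?_, hAk, hAr, hAm⟩)
  rintro rfl
  have h1 := hS.2.1
  unfold cx at hAm
  rw [Polynomial.map_zero, mahlerMeasure_zero] at hAm
  linarith

/-- a set of Salem numbers all of whose limit points are Pisot numbers has finitely many elements below `x < θ` -/
theorem finite_below (hSie : StSie) {s : Set ℝ} (hs : ∀ τ ∈ s, 1 < τ)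
    (hacc : ∀ c : ℝ, AccPt c (𝓟 s) → IsPisot c) {θ x : ℝ} (hθ : θ ^ 3 - θ - 1 = 0) (hx : x < θ) :
    (s ∩ Iic x).Finite := by
  by_contra hinf
  have hsub : s ∩ Iic x ⊆ Icc 1 x := fun τ hτ => ⟨(hs τ hτ.1).le, hτ.2⟩
  obtain ⟨y, hy, hyacc⟩ := Set.Infinite.exists_accPt_of_subset_isCompact hinf isCompact_Icc hsub
  have h1 := hacc y (hyacc.mono (principal_mono.2 inter_subset_left))
  linarith [hSie y θ h1 hθ, hy.2]

/-- a point that is not a limit point -/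
theorem not_acc_iff {s : Set ℝ} {c : ℝ} (h : ¬ AccPt c (𝓟 s)) :
    ∃ ε > 0, ∀ τ ∈ s, τ ≠ c → ε ≤ |τ - c| := by
  rw [accPt_iff_frequently, Filter.not_frequently, Metric.eventually_nhds_iff] at h
  obtain ⟨ε, hε, h1⟩ := h
  refine ⟨ε, hε, fun τ hτ hne => ?_⟩
  by_contra hcon
  exact h1 (by rw [Real.dist_eq]; exact not_le.1 hcon) ⟨hne, hτ⟩

theorem criterion (hUnp : StUnp) (hSal : StSal) (hSie : StSie) {p : ℝ} (hp : 1 ≤ p)
    (hlim : ∀ B c : ℝ, AccPt c (𝓟 (TP p B)) → IsPisot c) (θ : ℝ) (hθ : θ ^ 3 - θ - 1 = 0) :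
    (AccPt θ (𝓟 {τ : ℝ | IsSalem τ}) ∧ ∀ y : ℝ, AccPt y (𝓟 {τ : ℝ | IsSalem τ}) → θ ≤ y) ↔
      ∀ x < θ, ∃ B : ℝ, ∀ τ : ℝ, IsSalem τ → τ ≤ x → τ ∈ TP p B := by
  constructor
  · rintro ⟨-, h⟩ x hx
    have hfin : ({τ : ℝ | IsSalem τ ∧ τ ≤ x}).Finite := by
      by_contra hinf
      have hsub : {τ : ℝ | IsSalem τ ∧ τ ≤ x} ⊆ Icc 1 x := fun τ hτ => ⟨hτ.1.2.1.le, hτ.2⟩
      obtain ⟨y, hy, hacc⟩ := Set.Infinite.exists_accPt_of_subset_isCompact hinf isCompact_Icc hsub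
      have h1 := h y (hacc.mono (principal_mono.2 fun τ hτ => hτ.1))
      linarith [hy.2]
    have hex : ∀ τ : ℝ, ∃ B : ℝ, IsSalem τ → τ ∈ TP p B := by
      intro τ
      by_cases hS : IsSalem τ
      · obtain ⟨B, hB⟩ := exhaust p hS
        exact ⟨B, fun _ => hB⟩
      · exact ⟨0, fun h => absurd h hS⟩
    choose Bf hBf using hex
    obtain ⟨B, hB⟩ := (hfin.image Bf).bddAbove
    exact ⟨B, fun τ hS hτ => TP_mono (hB ⟨τ, ⟨hS, hτ⟩, rfl⟩) (hBf τ hS)⟩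
  · intro h
    constructor
    · obtain ⟨B0, hB0⟩ := theta_acc hUnp hSal hp
      exact (hB0 B0 le_rfl θ hθ).mono (principal_mono.2 fun τ hτ => hτ.1)
    · intro y hy
      by_contra hcon
      have hlt : y < θ := not_le.1 hcon
      obtain ⟨B, hB⟩ := h ((y + θ) / 2) (by linarith)
      have h1 : AccPt y (𝓟 (TP p B)) := by
        rw [accPt_iff_frequently] at hy ⊢
        have h2 : ∀ᶠ τ in 𝓝 y, τ < (y + θ) / 2 := gt_mem_nhds (by linarith)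
        refine (hy.and_eventually h2).mono ?_
        rintro τ ⟨⟨h3, h4⟩, h5⟩
        exact ⟨h3, hB τ h4 h5.le⟩
      exact absurd (hSie y θ (hlim B y h1) hθ) hcon

end Pool.Agent.Helper53.SLM

end
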